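import Pool.Agent.W751.RR.Stm

/-!
# Scaling of the uniform measure on the polydisc
-/

set_option autoImplicit false

open Polynomial Filter Topology MeasureTheory
open scoped ENNReal

namespace Pool.Agent.W214.RR

open Pool.Agent.W751.CD Pool.Agent.W751.RR

/-- the polydisc -/
def PD (ρ : ℝ) (N : ℕ) : Set (Fin N → ℂ) := {z | ∀ i, ‖z i‖ ≤ ρ}

lemma PD_eq (ρ : ℝ) (N : ℕ) : PD ρ N = Set.pi Set.univ (fun _ => Metric.closedBall (0 : ℂ) ρ) := by
  ext z
  simp [PD]

lemma PD_meas (ρ : ℝ) (N : ℕ) : MeasurableSet (PD ρ N) := by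
  rw [PD_eq]
  exact MeasurableSet.univ_pi fun _ => measurableSet_closedBall

lemma v_ne_zero {ρ : ℝ} (hρ : 0 < ρ) : volume (Metric.closedBall (0 : ℂ) ρ) ≠ 0 :=
  (Metric.measure_closedBall_pos volume 0 hρ).ne'

lemma v_ne_top (ρ : ℝ) : volume (Metric.closedBall (0 : ℂ) ρ) ≠ ⊤ :=
  measure_closedBall_lt_top.ne

instance m1_fin (ρ : ℝ) [Fact (0 < ρ)] : IsProbabilityMeasure (m1 ρ) := by
  constructor
  unfold m1
  rw [Measure.smul_apply, Measure.restrict_apply_univ, smul_eq_mul]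
  exact ENNReal.inv_mul_cancel (v_ne_zero Fact.out) (v_ne_top ρ)

lemma mN_eq {ρ : ℝ} (hρ : 0 < ρ) (N : ℕ) :
    mN ρ N = (volume (Metric.closedBall (0 : ℂ) ρ))⁻¹ ^ N • volume.restrict (PD ρ N) := by
  have : Fact (0 < ρ) := ⟨hρ⟩
  unfold mN
  apply Measure.pi_eq
  intro s hs
  rw [Measure.smul_apply, smul_eq_mul, Measure.restrict_apply (MeasurableSet.univ_pi hs), PD_eq,
    ← Set.pi_inter_distrib, volume_pi_pi]
  simp only [m1, Measure.smul_apply, smul_eq_mul]
  rw [Finset.prod_mul_distrib, Finset.prod_const, Finset.card_univ, Fintype.card_fin]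
  congr 1
  exact Finset.prod_congr rfl fun i _ => (Measure.restrict_apply (hs i)).symm

lemma vol_PD (ρ : ℝ) (N : ℕ) :
    volume (PD ρ N) = (volume (Metric.closedBall (0 : ℂ) ρ)) ^ N := by
  rw [PD_eq, volume_pi_pi, Finset.prod_const, Finset.card_univ, Fintype.card_fin]

theorem vol : S_VOL := by
  intro ρ N hρ
  have : Fact (0 < ρ) := ⟨hρ⟩
  have h0 := v_ne_zero hρ
  have ht := v_ne_top ρ
  have hPD : {z : Fin N → ℂ | ∀ i, ‖z i‖ ≤ ρ} = PD ρ N := rfl
  rw [hPD]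
  refine ⟨?_, ?_, ?_, ?_, fun B => ?_⟩
  · unfold mN
    infer_instance
  · rw [vol_PD]
    exact pow_ne_zero _ h0
  · rw [vol_PD]
    exact ENNReal.pow_ne_top ht
  · rw [mN_eq hρ]
    exact Measure.ae_smul_measure (ae_restrict_mem (PD_meas ρ N)) _
  · rw [mN_eq hρ, Measure.smul_apply, smul_eq_mul, Measure.restrict_apply' (PD_meas ρ N), vol_PD]
    have h1 : (volume (Metric.closedBall (0 : ℂ) ρ))⁻¹ ^ N *
        (volume (Metric.closedBall (0 : ℂ) ρ)) ^ N = 1 := by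
      rw [← mul_pow, ENNReal.inv_mul_cancel h0 ht, one_pow]
    calc volume (B ∩ PD ρ N) = 1 * volume (B ∩ PD ρ N) := (one_mul _).symm
      _ = _ := by
        rw [← h1]
        ring

/-- scaling of the volume -/
lemma vol_scale (N : ℕ) (B : Set (Fin N → ℂ)) (hB : MeasurableSet B) (κ : ℂ) (hκ : κ ≠ 0) :
    volume {z : Fin N → ℂ | (fun i => κ * z i) ∈ B} =
      ENNReal.ofReal ((‖κ‖ ^ (2 * N))⁻¹) * volume B := by
  have hn : ‖κ‖ ≠ 0 := norm_ne_zero_iff.2 hκ
  have hn' : ((‖κ‖ : ℝ) : ℂ) ≠ 0 := by exact_mod_cast hn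
  -- the unitary part
  let u : Circle := ⟨κ / ‖κ‖, by
    show κ / ‖κ‖ ∈ Metric.sphere (0 : ℂ) 1
    rw [mem_sphere_zero_iff_norm, norm_div, Complex.norm_real, norm_norm, div_self hn]⟩
  have hu : (u : ℂ) = κ / ‖κ‖ := rfl
  have hmp : MeasurePreserving (fun z : Fin N → ℂ => fun i => (rotation u) (z i)) :=
    volume_preserving_pi (fun _ => (rotation u).measurePreserving)
  have e1 : {z : Fin N → ℂ | (fun i => κ * z i) ∈ B} =
      (fun z : Fin N → ℂ => ‖κ‖ • z) ⁻¹' ((fun z : Fin N → ℂ => fun i => (rotation u) (z i)) ⁻¹' B) := by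
    ext z
    simp only [Set.mem_setOf_eq, Set.mem_preimage, Pi.smul_apply]
    have e2 : (fun i => κ * z i) = fun i => (rotation u) (‖κ‖ • z i) := by
      funext i
      rw [rotation_apply, hu, Complex.real_smul]
      field_simp
    rw [e2]
  rw [e1, Measure.addHaar_preimage_smul volume hn, hmp.measure_preimage hB.nullMeasurableSet]
  congr 2
  have hf : Module.finrank ℝ (Fin N → ℂ) = 2 * N := by
    rw [Module.finrank_pi_fintype]
    simp [Complex.finrank_real_complex, mul_comm]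
  rw [hf, abs_of_nonneg (by positivity)]

theorem sc : S_SC := by
  intro ρ N hρ hN B hB hBD κ hκ1 hκ2
  have hκ0 : κ ≠ 0 := by
    rintro rfl
    rw [norm_zero] at hκ1
    linarith
  have hn0 : 0 < ‖κ‖ := by linarith
  rw [mN_eq hρ, Measure.smul_apply, Measure.smul_apply, smul_eq_mul, smul_eq_mul,
    Measure.restrict_apply' (PD_meas ρ N), Measure.restrict_apply' (PD_meas ρ N)]
  have h1 : B ∩ PD ρ N = B := Set.inter_eq_left.2 fun z hz => hBD z hz
  have h2 : {z : Fin N → ℂ | (fun i => κ * z i) ∈ B} ∩ PD ρ N =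
      {z : Fin N → ℂ | (fun i => κ * z i) ∈ B} := by
    apply Set.inter_eq_left.2
    intro z hz i
    have h3 := hBD _ hz i
    simp only [norm_mul] at h3
    nlinarith [norm_nonneg (z i)]
  rw [h1, h2, vol_scale N B hB κ hκ0]
  have h4 : 1 ≤ Real.exp 4 * (‖κ‖ ^ (2 * N))⁻¹ := by
    rw [← div_eq_mul_inv, one_le_div (by positivity)]
    have hNr : (2 : ℝ) ≤ N := by exact_mod_cast hN
    calc ‖κ‖ ^ (2 * N) ≤ Real.exp (1 / ((N : ℝ) - 1)) ^ (2 * N) :=
          pow_le_pow_left₀ hn0.le hκ2 _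
      _ = Real.exp ((2 * N) * (1 / ((N : ℝ) - 1))) := by
          rw [← Real.exp_nat_mul]
          push_cast
          rfl
      _ ≤ Real.exp 4 := by
          apply Real.exp_le_exp.2
          rw [mul_one_div, div_le_iff₀ (by linarith)]
          linarith
  have h5 : (1 : ℝ≥0∞) ≤ ENNReal.ofReal (Real.exp 4) * ENNReal.ofReal ((‖κ‖ ^ (2 * N))⁻¹) := by
    rw [← ENNReal.ofReal_mul (Real.exp_pos _).le, ← ENNReal.ofReal_one]
    exact ENNReal.ofReal_le_ofReal h4
  calc (volume (Metric.closedBall (0 : ℂ) ρ))⁻¹ ^ N * volume B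
      = (volume (Metric.closedBall (0 : ℂ) ρ))⁻¹ ^ N * volume B * 1 := (mul_one _).symm
    _ ≤ (volume (Metric.closedBall (0 : ℂ) ρ))⁻¹ ^ N * volume B *
        (ENNReal.ofReal (Real.exp 4) * ENNReal.ofReal ((‖κ‖ ^ (2 * N))⁻¹)) := by gcongr
    _ = _ := by ring

/-- both statements -/
theorem main : S_SC ∧ S_VOL := ⟨sc, vol⟩

end Pool.Agent.W214.RR
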